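import Pool.Agent.H38.AG.Targets

/-!
# FIP: triples for which the radical of the `i`-th entry is given
-/

set_option autoImplicit false
set_option linter.unusedVariables false

namespace Pool.Agent.H13.AG

open Pool.Agent.H38.RB Pool.Agent.H38.PS Pool.Agent.H82.RD Pool.Agent.H38.AB Pool.Agent.H38.AG

theorem adm_perm {x : Fin 3 → ℤ} (h : Adm x) (σ : Equiv.Perm (Fin 3)) : Adm (x ∘ σ) := by
  obtain ⟨h1, h2, h3⟩ := h
  refine ⟨fun i => h1 (σ i), fun i j hij => h2 _ _ fun h => hij (σ.injective h), ?_⟩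
  have h4 := Equiv.sum_comp σ x
  rw [Fin.sum_univ_three, Fin.sum_univ_three] at h4
  exact h4.trans h3

theorem pr_perm (x : Fin 3 → ℤ) (σ : Equiv.Perm (Fin 3)) : pr (x ∘ σ) = pr x := by
  have h4 := Equiv.prod_comp σ x
  rw [Fin.prod_univ_three, Fin.prod_univ_three] at h4
  exact congrArg Int.natAbs h4

theorem pd_pr {x : Fin 3 → ℤ} (h : Adm x) : pd (pr x).primeFactors =
    pd (x 0).natAbs.primeFactors * pd (x 1 * x 2).natAbs.primeFactors := by
  obtain ⟨h1, h2, h3⟩ := h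
  have e : pr x = (x 0).natAbs * (x 1 * x 2).natAbs := by
    unfold pr
    rw [mul_assoc, Int.natAbs_mul]
  have hco : Nat.Coprime (x 0).natAbs (x 1 * x 2).natAbs := by
    have : IsCoprime (x 0) (x 1 * x 2) :=
      IsCoprime.mul_right (h2 0 1 (by decide)) (h2 0 2 (by decide))
    exact Int.isCoprime_iff_gcd_eq_one.1 this
  rw [e, Nat.primeFactors_mul (Int.natAbs_ne_zero.2 (h1 0))
    (Int.natAbs_ne_zero.2 (mul_ne_zero (h1 1) (h1 2)))]
  unfold pd
  rw [Finset.prod_union hco.disjoint_primeFactors]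

theorem pf_FIP (hFIN4 : T_FIN4) : T_FIP := by
  intro ε hε
  obtain ⟨C, hC, h⟩ := hFIN4 ε hε
  refine ⟨C, hC, ?_⟩
  intro i s R hs hR
  obtain ⟨hfin, hcard⟩ := h s R hs hR
  let φ : (Fin 3 → ℤ) → (Fin 3 → ℤ) := fun x => x ∘ (Equiv.swap 0 i)
  have hinj : Function.Injective φ := by
    intro x y hxy
    funext a
    have := congrFun hxy ((Equiv.swap 0 i).symm a)
    simpa [φ] using this
  have hmap : ∀ x, x ∈ {x | Adm x ∧ pd (x i).natAbs.primeFactors = s ∧
      (pd (pr x).primeFactors : ℝ) ≤ s * R} → φ x ∈ {x | Adm x ∧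
      pd (x 0).natAbs.primeFactors = s ∧ (pd (x 1 * x 2).natAbs.primeFactors : ℝ) ≤ R} := by
    rintro x ⟨hx1, hx2, hx3⟩
    have ha : Adm (φ x) := adm_perm hx1 _
    have h0 : φ x 0 = x i := by simp [φ]
    have hs0 : pd (φ x 0).natAbs.primeFactors = s := by rw [h0, hx2]
    refine ⟨ha, hs0, ?_⟩
    have h1 := pd_pr ha
    rw [pr_perm, hs0] at h1
    rw [h1, Nat.cast_mul] at hx3
    exact le_of_mul_le_mul_left hx3 (by exact_mod_cast hs)
  refine ⟨?_, ?_⟩
  · exact (hfin.preimage hinj.injOn).subset fun x hx => hmap x hx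
  · refine le_trans ?_ hcard
    exact_mod_cast Set.ncard_le_ncard_of_injOn φ hmap hinj.injOn hfin

end Pool.Agent.H13.AG
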