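import Pool.Agent.H67.AG.T1

/-!
ABSOLUTE GAP (`MP_c59857_nt`): row ST, one step of the tower in terms of the products with
translates.
-/

set_option autoImplicit false

open MeasureTheory ProbabilityTheory Filter Topology Finset
open scoped Nat ENNReal

namespace Pool.Agent.H13.AG

open Pool.Agent.H67.AG

theorem TT_iter {X : Type} [MeasurableSpace X] [StandardBorelSpace X] (T : X ≃ᵐ X) (n : ℕ)
    (q : X × X) : (TT T)^[n] q = (T^[n] q.1, T^[n] q.2) := by
  induction n generalizing q with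
  | zero => rfl
  | succ n ih =>
    rw [Function.iterate_succ_apply, ih]
    rfl

theorem inv_le {Ω : Type} [mΩ : MeasurableSpace Ω] (T : Ω ≃ᵐ Ω) (W : ℕ) : Inv T W ≤ mΩ :=
  MeasurableSpace.invariants_le _

/-- conditional expectation of a function bounded by `1` -/
theorem ce_bd {Ω : Type} (m : MeasurableSpace Ω) [mΩ : MeasurableSpace Ω] (P : Measure Ω)
    [IsProbabilityMeasure P] (f : Ω → ℝ) (hf : ∀ ω, |f ω| ≤ 1) :
    ∀ᵐ ω ∂P, |(P[f | m]) ω| ≤ 1 :=
  ae_bdd_abs_condExp_of_ae_bdd_abs (Eventually.of_forall hf)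

/-- the integral of the square of a conditional expectation -/
theorem int_ce_sq {Ω : Type} (m : MeasurableSpace Ω) [mΩ : MeasurableSpace Ω] (P : Measure Ω)
    [IsProbabilityMeasure P] (hm : m ≤ mΩ) (f h : Ω → ℝ) (hf : Measurable f)
    (hf1 : ∀ ω, |f ω| ≤ 1) (hh : StronglyMeasurable[m] h) (hh1 : ∀ᵐ ω ∂P, |h ω| ≤ 1) :
    ∫ ω, f ω * h ω ∂P = ∫ ω, (P[f | m]) ω * h ω ∂P := by
  have hfi : Integrable f P := Integrable.of_bound hf.aestronglyMeasurable 1
    (Eventually.of_forall fun ω => by simpa using hf1 ω)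
  have hfh : Integrable (f * h) P := by
    refine Integrable.of_bound (hf.aestronglyMeasurable.mul (hh.mono hm).aestronglyMeasurable) 1 ?_
    filter_upwards [hh1] with ω hω
    simp only [Pi.mul_apply, norm_mul, Real.norm_eq_abs]
    exact mul_le_one₀ (hf1 ω) (abs_nonneg _) hω
  have h1 := condExp_mul_of_stronglyMeasurable_right (μ := P) hh hfh hfi
  calc ∫ ω, f ω * h ω ∂P = ∫ ω, (P[f * h | m]) ω ∂P := (integral_condExp hm).symm
    _ = ∫ ω, (P[f | m]) ω * h ω ∂P := integral_congr_ae h1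

theorem pf_ST (hme : T_ME) (hec : T_EC) (h1 : T_J1) (h3 : T_J3) (hcv : T_CV) : T_ST := by
  intro X _ _ μ _ T Z b g ε herg hZ hb hg hg1 hε
  have hJ : IsProbabilityMeasure (JJ μ Z) := by unfold JJ; infer_instance
  have hTm : ∀ n, Measurable (T^[n]) := fun n => T.measurable.iterate n
  set F : X × X → ℝ := fun q => g q.1 * g q.2 with hF
  have hFm : Measurable F := (hg.comp measurable_fst).mul (hg.comp measurable_snd)
  have hF1 : ∀ q, |F q| ≤ 1 := fun q => by
    rw [hF]; simp only [abs_mul]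
    exact mul_le_one₀ (hg1 _) (abs_nonneg _) (hg1 _)
  have hSmp : MeasurePreserving (TT T) (JJ μ Z) (JJ μ Z) :=
    (h3 X μ T Z herg.toMeasurePreserving hZ).1
  set PF : X × X → ℝ := (JJ μ Z)[F | Inv (TT T) b] with hPF
  have hPFm : StronglyMeasurable[Inv (TT T) b] PF := stronglyMeasurable_condExp
  have hPF1 : ∀ᵐ q ∂(JJ μ Z), |PF q| ≤ 1 := ce_bd _ _ F hF1
  have hPFinv : ∀ q, PF ((TT T)^[b] q) = PF q :=
    (hec (X × X) (JJ μ Z) (TT T) b 0 F hSmp hFm ⟨1, hF1⟩).2
  -- the clipped function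
  set H' : X × X → ℝ := fun q => max (-1) (min 1 (PF q)) with hH'
  have hH'm : Measurable H' :=
    measurable_const.max (measurable_const.min (hPFm.mono (inv_le _ _)).measurable)
  have hH'1 : ∀ q, |H' q| ≤ 1 := fun q => by
    rw [abs_le]
    exact ⟨le_max_left _ _, max_le (by norm_num) (min_le_left _ _)⟩
  have hH'a : Adm T b H' := ⟨hH'm, hH'1, fun q => by simp only [hH', hPFinv q]⟩
  have hH'e : H' =ᵐ[JJ μ Z] PF := by
    filter_upwards [hPF1] with q hq
    rw [abs_le] at hq
    simp only [hH']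
    rw [min_eq_right hq.2, max_eq_right hq.1]
  obtain ⟨ph, hphm, hph1, hphe⟩ := hcv X μ T Z b H' g herg hZ hb hH'a hg hg1
  -- the norm of the projection
  have hkey : ∫ q, PF q ^ 2 ∂(JJ μ Z) ≤ √(∫ x, ((μ[g | (nxt μ T Z).1]) x) ^ 2 ∂μ) := by
    have e1 : ∫ q, PF q ^ 2 ∂(JJ μ Z) = ∫ q, F q * PF q ∂(JJ μ Z) := by
      rw [int_ce_sq (Inv (TT T) b) (JJ μ Z) (inv_le _ _) F PF hFm hF1 hPFm hPF1]
      exact integral_congr_ae (Eventually.of_forall fun q => by simp only [sq, hPF])
    have e2 : ∫ q, F q * PF q ∂(JJ μ Z) = ∫ q, F q * H' q ∂(JJ μ Z) :=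
      integral_congr_ae (by filter_upwards [hH'e] with q hq; rw [hq])
    have hFH : Integrable (fun q => F q * H' q) (JJ μ Z) :=
      Integrable.of_bound (hFm.mul hH'm).aestronglyMeasurable 1
        (Eventually.of_forall fun q => by
          rw [Real.norm_eq_abs, abs_mul]
          exact mul_le_one₀ (hF1 q) (abs_nonneg _) (hH'1 q))
    have e3 : ∫ q, F q * H' q ∂(JJ μ Z) = ∫ x, g x * conv μ Z H' g x ∂μ := by
      unfold JJ at hFH ⊢
      rw [Measure.integral_compProd hFH]
      refine integral_congr_ae (Eventually.of_forall fun x => ?_)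
      simp only [conv, hF]
      rw [← integral_const_mul]
      exact integral_congr_ae (Eventually.of_forall fun y => by ring)
    have e4 : ∫ x, g x * conv μ Z H' g x ∂μ = ∫ x, g x * ph x ∂μ :=
      integral_congr_ae (by filter_upwards [hphe] with x hx; rw [hx])
    have e5 : ∫ x, g x * ph x ∂μ = ∫ x, (μ[g | (nxt μ T Z).1]) x * ph x ∂μ :=
      int_ce_sq (nxt μ T Z).1 μ (nxt μ T Z).2 g ph hg hg1 hphm.stronglyMeasurable
        (Eventually.of_forall hph1)
    rw [e1, e2, e3, e4, e5]
    set G : X → ℝ := μ[g | (nxt μ T Z).1] with hG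
    have hGm : StronglyMeasurable G := stronglyMeasurable_condExp.mono (nxt μ T Z).2
    have hG1 : ∀ᵐ x ∂μ, |G x| ≤ 1 := ce_bd _ _ g hg1
    have hphm' : Measurable ph := hphm.mono (nxt μ T Z).2 le_rfl
    have hG2i : Integrable (fun x => G x ^ 2) μ :=
      Integrable.of_bound (hGm.measurable.pow_const 2).aestronglyMeasurable 1
        (by filter_upwards [hG1] with x hx
            rw [Real.norm_eq_abs, abs_pow]
            exact pow_le_one₀ (abs_nonneg _) hx)
    have hGp : Integrable (fun x => G x * ph x) μ :=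
      Integrable.of_bound (hGm.measurable.mul hphm').aestronglyMeasurable 1
        (by filter_upwards [hG1] with x hx
            rw [Real.norm_eq_abs, abs_mul]
            exact mul_le_one₀ hx (abs_nonneg _) (hph1 x))
    -- Cauchy-Schwarz in the form 2 G ph <= G ^ 2 / r + r
    set I := ∫ x, G x ^ 2 ∂μ with hI
    have hI0 : 0 ≤ I := integral_nonneg fun x => sq_nonneg _
    have cs : ∀ r : ℝ, 0 < r → ∫ x, G x * ph x ∂μ ≤ (I / r + r) / 2 := by
      intro r hr
      have : ∫ x, G x * ph x ∂μ ≤ ∫ x, (G x ^ 2 / r + r) / 2 ∂μ := by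
        refine integral_mono hGp (((hG2i.div_const r).add (integrable_const r)).div_const 2) ?_
        intro x
        have h2 : ph x ^ 2 ≤ 1 := by
          have := hph1 x
          rw [← sq_abs]
          exact pow_le_one₀ (abs_nonneg _) this
        have h3 : 0 ≤ (G x - r * ph x) ^ 2 := sq_nonneg _
        show G x * ph x ≤ (G x ^ 2 / r + r) / 2
        have h4 : G x ^ 2 / r + r - 2 * (G x * ph x) =
          ((G x - r * ph x) ^ 2 + r ^ 2 * (1 - ph x ^ 2)) / r := by
          field_simp; ring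
        have h5 : 0 ≤ ((G x - r * ph x) ^ 2 + r ^ 2 * (1 - ph x ^ 2)) / r :=
          div_nonneg (add_nonneg h3 (mul_nonneg (sq_nonneg _) (by linarith))) hr.le
        linarith
      refine this.trans (le_of_eq ?_)
      rw [integral_div, integral_add (hG2i.div_const r) (integrable_const r), integral_div]
      simp [hI]
    by_cases hI00 : I = 0
    · rw [hI00, Real.sqrt_zero]
      refine le_of_forall_pos_le_add fun η hη => ?_
      have := cs (2 * η) (by linarith)
      rw [hI00] at this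
      simp at this
      linarith
    · have hpos : 0 < √I := Real.sqrt_pos.mpr (lt_of_le_of_ne hI0 (Ne.symm hI00))
      have := cs (√I) hpos
      rw [Real.div_sqrt] at this
      linarith
  -- the mean ergodic theorem
  have hlim := hme (X × X) (JJ μ Z) (TT T) b F hSmp hFm hF1
  rw [Metric.tendsto_atTop] at hlim
  obtain ⟨H₀, hH₀⟩ := hlim (ε ^ 2 / 4) (by positivity)
  refine ⟨H₀ + 1, fun H hH => ?_⟩
  have hHpos : 0 < H := by omega
  have hHR : (0 : ℝ) < H := by exact_mod_cast hHpos
  set A : X × X → ℝ := Av (TT T) b H F with hA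
  have hAm : Measurable A := by
    rw [hA]; unfold Av
    refine Measurable.div_const (Finset.measurable_sum _ fun l _ => ?_) _
    exact hFm.comp ((TT T).measurable.iterate _)
  have hA1 : ∀ q, |A q| ≤ 1 := by
    intro q
    rw [hA]; unfold Av
    rw [abs_div, abs_of_pos hHR, div_le_one hHR]
    refine (Finset.abs_sum_le_sum_abs _ _).trans ?_
    refine (Finset.sum_le_sum fun l _ => hF1 _).trans (by simp)
  have hPFm' : Measurable PF := (hPFm.mono (inv_le _ _)).measurable
  have hd : ∫ q, (A q - PF q) ^ 2 ∂(JJ μ Z) ≤ ε ^ 2 / 4 := by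
    have := hH₀ H (by omega)
    rw [Real.dist_eq, sub_zero] at this
    exact (le_abs_self _).trans this.le
  have hd2 : Integrable (fun q => (A q - PF q) ^ 2) (JJ μ Z) :=
    Integrable.of_bound ((hAm.sub hPFm').pow_const 2).aestronglyMeasurable 4
      (by filter_upwards [hPF1] with q hq
          have h2 := hA1 q
          rw [abs_le] at hq h2
          rw [Real.norm_eq_abs, abs_of_nonneg (sq_nonneg _)]
          nlinarith)
  have hPF2 : Integrable (fun q => PF q ^ 2) (JJ μ Z) :=
    Integrable.of_bound (hPFm'.pow_const 2).aestronglyMeasurable 1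
      (by filter_upwards [hPF1] with q hq
          rw [Real.norm_eq_abs, abs_pow]
          exact pow_le_one₀ (abs_nonneg _) hq)
  have hA2 : Integrable (fun q => A q ^ 2) (JJ μ Z) :=
    Integrable.of_bound (hAm.pow_const 2).aestronglyMeasurable 1
      (Eventually.of_forall fun q => by
          rw [Real.norm_eq_abs, abs_pow]
          exact pow_le_one₀ (abs_nonneg _) (hA1 q))
  have hAle : ∫ q, A q ^ 2 ∂(JJ μ Z) ≤ √(∫ x, ((μ[g | (nxt μ T Z).1]) x) ^ 2 ∂μ) + ε := by
    have h6 : ∫ q, A q ^ 2 ∂(JJ μ Z) ≤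
        ∫ q, (PF q ^ 2 + (ε / 2 + 2 / ε * (A q - PF q) ^ 2)) ∂(JJ μ Z) := by
      refine integral_mono_ae hA2
        (hPF2.add ((integrable_const _).add (hd2.const_mul _))) ?_
      filter_upwards [hPF1] with q hq
      have h2 := hA1 q
      rw [abs_le] at hq h2
      have h7 : 0 ≤ (2 * (A q - PF q) - ε * ((A q + PF q) / 2)) ^ 2 := sq_nonneg _
      have h8 : (A q + PF q) ^ 2 ≤ 4 := by nlinarith
      have h9 : PF q ^ 2 + (ε / 2 + 2 / ε * (A q - PF q) ^ 2) - A q ^ 2 =
          ((2 * (A q - PF q) - ε * ((A q + PF q) / 2)) ^ 2 +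
            ε ^ 2 * (1 - (A q + PF q) ^ 2 / 4)) / (2 * ε) := by
        field_simp; ring
      have h10 : 0 ≤ ((2 * (A q - PF q) - ε * ((A q + PF q) / 2)) ^ 2 +
            ε ^ 2 * (1 - (A q + PF q) ^ 2 / 4)) / (2 * ε) :=
        div_nonneg (add_nonneg h7 (mul_nonneg (sq_nonneg _) (by linarith))) (by linarith)
      show A q ^ 2 ≤ PF q ^ 2 + (ε / 2 + 2 / ε * (A q - PF q) ^ 2)
      linarith
    have h11 : ∫ q, (PF q ^ 2 + (ε / 2 + 2 / ε * (A q - PF q) ^ 2)) ∂(JJ μ Z) =
        ∫ q, PF q ^ 2 ∂(JJ μ Z) + (ε / 2 + 2 / ε * ∫ q, (A q - PF q) ^ 2 ∂(JJ μ Z)) := by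
      have i1 : Integrable (fun q : X × X => ε / 2 + 2 / ε * (A q - PF q) ^ 2) (JJ μ Z) :=
        (integrable_const _).add (hd2.const_mul _)
      rw [integral_add hPF2 i1,
        integral_add (integrable_const _) (hd2.const_mul _), integral_const_mul]
      simp
    have h12 : 2 / ε * ∫ q, (A q - PF q) ^ 2 ∂(JJ μ Z) ≤ ε / 2 := by
      calc 2 / ε * ∫ q, (A q - PF q) ^ 2 ∂(JJ μ Z) ≤ 2 / ε * (ε ^ 2 / 4) :=
            mul_le_mul_of_nonneg_left hd (by positivity)
        _ = ε / 2 := by field_simp; ring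
    rw [h11] at h6
    linarith
  -- the double sum
  have hst : ∀ s t : ℕ, ∫ x, ((μ[fun x' => g (T^[b * s] x') * g (T^[b * t] x') | Z.1]) x) ^ 2 ∂μ =
      ∫ q, F ((TT T)^[b * s] q) * F ((TT T)^[b * t] q) ∂(JJ μ Z) := by
    intro s t
    have hGm : Measurable fun x' => g (T^[b * s] x') * g (T^[b * t] x') :=
      (hg.comp (hTm _)).mul (hg.comp (hTm _))
    have hG1 : ∀ x', |g (T^[b * s] x') * g (T^[b * t] x')| ≤ 1 := fun x' => by
      rw [abs_mul]
      exact mul_le_one₀ (hg1 _) (abs_nonneg _) (hg1 _)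
    have := h1 X μ Z _ _ hGm hGm ⟨1, hG1⟩ ⟨1, hG1⟩
    calc _ = ∫ x, (μ[fun x' => g (T^[b * s] x') * g (T^[b * t] x') | Z.1]) x *
          (μ[fun x' => g (T^[b * s] x') * g (T^[b * t] x') | Z.1]) x ∂μ := by
          simp only [sq]
      _ = _ := by
          rw [← this]
          refine integral_congr_ae (Eventually.of_forall fun q => ?_)
          simp only [TT_iter, hF]
          ring
  simp only [hst]
  have hint : ∀ s t : ℕ, Integrable
      (fun q => F ((TT T)^[b * s] q) * F ((TT T)^[b * t] q)) (JJ μ Z) := fun s t =>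
    Integrable.of_bound ((hFm.comp ((TT T).measurable.iterate _)).mul
      (hFm.comp ((TT T).measurable.iterate _))).aestronglyMeasurable 1
        (Eventually.of_forall fun q => by
          simp only [Real.norm_eq_abs, abs_mul]
          exact mul_le_one₀ (hF1 _) (abs_nonneg _) (hF1 _))
  have hsum : ∑ s ∈ range H, ∑ t ∈ range H,
      ∫ q, F ((TT T)^[b * s] q) * F ((TT T)^[b * t] q) ∂(JJ μ Z) =
      (H : ℝ) ^ 2 * ∫ q, A q ^ 2 ∂(JJ μ Z) := by
    rw [← integral_const_mul]
    simp_rw [← integral_finsetSum _ fun t _ => hint _ t]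
    rw [← integral_finsetSum _ fun s _ => integrable_finsetSum _ fun t _ => hint s t]
    refine integral_congr_ae (Eventually.of_forall fun q => ?_)
    simp only [hA, Av]
    rw [← Finset.sum_mul_sum]
    field_simp
  rw [hsum]
  exact mul_le_mul_of_nonneg_left hAle (by positivity)

end Pool.Agent.H13.AG
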